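import Pool.Agent.Helper51.LOC.Ext
import Pool.Agent.Helper379.LOC.LinDisj
import Pool.Agent.Helper740.LOC.HJ

/-! T2 complete: the HJ lemma. -/

set_option autoImplicit false
set_option linter.all false

open Module Polynomial

namespace FFT

theorem extStmt : ExtStmt := by
  intro R E M _ _ _ _ _ _ _ _ _ L S hS θ hθS hθ E1 _ _ _ _ φ1 hφ
  have hθR : IsIntegral R θ := (Algebra.IsAlgebraic.isAlgebraic (R := R) θ).isIntegral
  obtain ⟨ψ, -⟩ := ext_hom51 L (S : Set M) hS θ hθS (by
    intro ι v hv hi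
    refine lin_disj (R := R) (E := E) L (IntermediateField.adjoin R {algebraMap E M θ}) ?_ hθ ?_ v hv hi
    · rw [IntermediateField.adjoin_simple_le_iff]
      exact hS _ hθS
    · intro f hf
      haveI : Algebra.IsAlgebraic R (IntermediateField.adjoin R {algebraMap E M θ}) := by
        apply IntermediateField.isAlgebraic_adjoin_simple
        exact hθR.map (IsScalarTower.toAlgHom R E M)
      have := Algebra.IsAlgebraic.isAlgebraic (R := R) (⟨f, hf⟩ : IntermediateField.adjoin R {algebraMap E M θ})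
      exact IntermediateField.isAlgebraic_iff.1 this) E1 φ1 hφ
  exact ⟨ψ⟩

theorem HJ_lemma {R E M : Type} [Field R] [CharZero R] [Field E] [Algebra R E]
    [Field M] [Algebra R M] [Algebra E M]
    [IsScalarTower R E M] [Algebra.IsAlgebraic R E] (L : IntermediateField R M) (S : Finset M)
    (hS : ∀ t ∈ S, t ∈ L) (θ : E) (hθS : algebraMap E M θ ∈ S)
    (hθ : ∀ f ∈ L, IsAlgebraic R f → f ∈ IntermediateField.adjoin R {algebraMap E M θ}) (I : ℕ)
    (hI : ∀ (E' : Type) [Field E'] [Algebra E E'], FiniteDimensional E E' →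
      Nonempty (Algebra.adjoin E (S : Set M) →ₐ[E] E') → I ∣ finrank E E')
    (Ψ : Type) [Field Ψ] [Algebra R Ψ] (hΨ : FiniteDimensional R Ψ)
    (φ : Algebra.adjoin R (S : Set M) →ₐ[R] Ψ) :
    finrank R (IntermediateField.adjoin R {θ}) * I ∣ finrank R Ψ :=
  HJ_lemma_of extStmt L S hS θ hθS hθ I hI Ψ hΨ φ

end FFT
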